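import Pool.Agent.H43.Chc2

open MeasureTheory Set Pool.Agent.H43.Chc

namespace Pool.Agent.Results.MP_5351bf_an.Yes

/-- For every characteristic class `F`, every automorphism `S = (X, μ, T)` and every standard
probability space `(Y, ν)`: a measurable set `E ⊆ X × Y` lies in `A(F)(T × Id_Y)` if and only if
it agrees, up to a null set, with a set of the product of `A(F)(T)` and the full sigma-algebra
of `Y`. -/
theorem result (F : Aut → Prop) (hF : CharClass F) (S : Aut)
    (Y : Type) [mY : MeasurableSpace Y] [StandardBorelSpace Y]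
    (ν : Measure Y) [IsProbabilityMeasure ν] (E : Set (S.X × Y)) (hE : MeasurableSet E) :
    E ∈ A F (prodId S Y ν) ↔ ∃ E' : Set (S.X × Y),
      MeasurableSet[(MeasurableSpace.generateFrom (A F S)).prod mY] E' ∧
        E =ᵐ[S.μ.prod ν] E' := by
  rw [gen_eq hF S]
  exact main S Y ν hF hE

end Pool.Agent.Results.MP_5351bf_an.Yes
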